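import Pool.Agent.Helper19.HM.Goals

/-!
# HM-KIL: `psi` kills the ideal of the diagonal coinvariants modulo shorter words
-/

set_option autoImplicit false

namespace Pool.Agent.Helper76.HM

noncomputable section

open Pool.Agent.Helper19.SQ Pool.Agent.Helper19.HM MvPolynomial

theorem sgn_mul_self {n : ℕ} (g : Equiv.Perm (Fin n)) :
    ((Equiv.Perm.sign g : ℤ) : ℂ) * ((Equiv.Perm.sign g : ℤ) : ℂ) = 1 := by
  rcases Int.units_eq_one_or (Equiv.Perm.sign g) with h | h <;> rw [h] <;> simp

theorem sgn_mul {n : ℕ} (g h : Equiv.Perm (Fin n)) :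
    ((Equiv.Perm.sign (g * h) : ℤ) : ℂ)
      = ((Equiv.Perm.sign g : ℤ) : ℂ) * ((Equiv.Perm.sign h : ℤ) : ℂ) := by
  rw [map_mul, Units.val_mul, Int.cast_mul]

/-- the antisymmetrization lies in the sign part. -/
theorem anti_mem {n : ℕ} {V : Type} [AddCommGroup V] [Module ℂ V] (H : HMod n V) (v : V) :
    (∑ g : Equiv.Perm (Fin n), ((Equiv.Perm.sign g : ℤ) : ℂ) • H.s g v) ∈ H.sg := by
  intro h
  rw [map_sum, Finset.smul_sum]
  rw [← Equiv.sum_comp (Equiv.mulLeft h)
    (fun g => ((Equiv.Perm.sign h : ℤ) : ℂ) • (((Equiv.Perm.sign g : ℤ) : ℂ) • H.s g v))]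
  refine Finset.sum_congr rfl ?_
  intro g _
  rw [Equiv.coe_mulLeft, map_smul, sgn_mul, smul_smul, ← mul_assoc, sgn_mul_self, one_mul,
    H.s_mul]
  rfl

/-- step (1). -/
theorem psi_inv {n : ℕ} {V : Type} [AddCommGroup V] [Module ℂ V] (H : HMod n V) (δ : V)
    (hn : 2 ≤ n) (hsg : H.sg = Submodule.span ℂ {δ}) (hprm : S_PRM) (hpsi : S_PSI)
    (f : Pn n) (k : ℕ) (hk : 1 ≤ k) (hf : f.IsHomogeneous k)
    (hinv : ∀ g : Equiv.Perm (Fin n), rn g f = f) : H.psi δ f ∈ H.G δ k := by
  have hδ : δ ∈ H.sg := by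
    rw [hsg]
    exact Submodule.mem_span_singleton_self δ
  obtain ⟨hmono, -, -, -, -⟩ := hprm n V H δ hn hδ
  obtain ⟨-, -, h3⟩ := hpsi n V H δ hn hδ
  have hδ1 : δ ∈ H.G δ 1 := by
    refine Submodule.subset_span ⟨[], ?_, ?_⟩
    · simp
    · simp [HMod.op]
  have hsgG : ∀ u ∈ H.sg, u ∈ H.G δ k := by
    intro u hu
    rw [hsg] at hu
    obtain ⟨c, rfl⟩ := Submodule.mem_span_singleton.1 hu
    exact Submodule.smul_mem _ c (hmono 1 k hk hδ1)
  have hA : (∑ g : Equiv.Perm (Fin n), ((Equiv.Perm.sign g : ℤ) : ℂ) • H.s g (H.psi δ f))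
      ∈ H.G δ k := hsgG _ (anti_mem H _)
  have hB : (∑ g : Equiv.Perm (Fin n), (((Equiv.Perm.sign g : ℤ) : ℂ) • H.s g (H.psi δ f)
      - H.psi δ f)) ∈ H.G δ k := by
    refine Submodule.sum_mem _ ?_
    intro g _
    have h := h3 g k f hf
    rw [hinv g] at h
    have h' := Submodule.smul_mem _ (((Equiv.Perm.sign g : ℤ) : ℂ)) h
    rw [smul_sub, smul_smul, sgn_mul_self, one_smul] at h'
    exact h'
  rw [Finset.sum_sub_distrib, Finset.sum_const] at hB
  have hC := Submodule.sub_mem _ hA hB
  rw [sub_sub_cancel, Finset.card_univ, Fintype.card_perm, Fintype.card_fin] at hC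
  have hne : ((n.factorial : ℕ) : ℂ) ≠ 0 := by
    exact_mod_cast Nat.factorial_ne_zero n
  have h5 := Submodule.smul_mem _ (((n.factorial : ℕ) : ℂ)⁻¹) hC
  rw [← Nat.cast_smul_eq_nsmul ℂ, smul_smul, inv_mul_cancel₀ hne, one_smul] at h5
  exact h5

/-- every polynomial is a combination of words. -/
theorem span_words {n : ℕ} (h : Pn n) :
    h ∈ Submodule.span ℂ (Set.range fun w : List (Fin n ⊕ Fin n) =>
      ((w.map (X : Fin n ⊕ Fin n → Pn n)).prod)) := by
  induction h using MvPolynomial.induction_on with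
  | C a =>
    have h1 : (C a : Pn n) = a • (1 : Pn n) := by
      rw [← C_mul', mul_one]
    rw [h1]
    refine Submodule.smul_mem _ a (Submodule.subset_span ⟨[], ?_⟩)
    simp
  | add p q hp hq => exact Submodule.add_mem _ hp hq
  | mul_X p i hp =>
    induction hp using Submodule.span_induction with
    | mem x hx =>
      obtain ⟨w, rfl⟩ := hx
      refine Submodule.subset_span ⟨w ++ [i], ?_⟩
      simp
    | zero => rw [zero_mul]; exact Submodule.zero_mem _
    | add x y _ _ hx hy => rw [add_mul]; exact Submodule.add_mem _ hx hy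
    | smul a x _ hx =>
      rw [smul_mul_assoc]
      exact Submodule.smul_mem _ a hx

theorem word_homog {n : ℕ} (w : List (Fin n ⊕ Fin n)) :
    ((w.map (X : Fin n ⊕ Fin n → Pn n)).prod).IsHomogeneous w.length := by
  induction w with
  | nil =>
    simpa using (isHomogeneous_one (Fin n ⊕ Fin n) ℂ)
  | cons a w ih =>
    rw [List.map_cons, List.prod_cons, List.length_cons, add_comm]
    exact (isHomogeneous_X ℂ a).mul ih

/-- **KIL**. -/
theorem c_kil (hprm : S_PRM) (hpsi : S_PSI) : S_KIL := by
  intro n V _ _ H δ hn hsg f hf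
  have hδ : δ ∈ H.sg := by
    rw [hsg]
    exact Submodule.mem_span_singleton_self δ
  obtain ⟨-, hop, -, -, -⟩ := hprm n V H δ hn hδ
  obtain ⟨-, h2, -⟩ := hpsi n V H δ hn hδ
  -- the statement for a word times a generator
  have hword : ∀ (w : List (Fin n ⊕ Fin n)) (p : Pn n),
      (∀ g : Equiv.Perm (Fin n), rn g p = p) → constantCoeff p = 0 → ∀ k,
      H.psi δ (homogeneousComponent k ((w.map (X : Fin n ⊕ Fin n → Pn n)).prod * p))
        ∈ H.G δ k := by
    intro w p hp h0 k
    have hp' : ∀ j, H.psi δ (homogeneousComponent j p) ∈ H.G δ j := by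
      intro j
      rcases Nat.eq_zero_or_pos j with rfl | hj
      · rw [homogeneousComponent_zero, ← constantCoeff_eq, h0, map_zero, map_zero]
        exact Submodule.zero_mem _
      · refine psi_inv H δ hn hsg hprm hpsi _ j hj (homogeneousComponent_isHomogeneous j p) ?_
        intro g
        have h := rename_homogeneousComponent (φ := Sum.map g g) j p
        have h' : rename (Sum.map g g) p = p := hp g
        rw [h'] at h
        exact h
    have hsum : (w.map (X : Fin n ⊕ Fin n → Pn n)).prod * p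
        = ∑ j ∈ Finset.range (p.totalDegree + 1),
          (w.map (X : Fin n ⊕ Fin n → Pn n)).prod * homogeneousComponent j p := by
      rw [← Finset.mul_sum, sum_homogeneousComponent]
    rw [hsum, map_sum, map_sum]
    refine Submodule.sum_mem _ ?_
    intro j _
    have hhom : ((w.map (X : Fin n ⊕ Fin n → Pn n)).prod * homogeneousComponent j p)
        ∈ homogeneousSubmodule (Fin n ⊕ Fin n) ℂ (w.length + j) :=
      (word_homog w).mul (homogeneousComponent_isHomogeneous j p)
    rw [homogeneousComponent_of_mem hhom]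
    split_ifs with hkj
    · rw [hkj, add_comm]
      have h5 := h2 w j _ (homogeneousComponent_isHomogeneous j p)
      have h6 := hop w j _ (hp' j)
      have h7 := Submodule.add_mem _ h5 h6
      rw [sub_add_cancel] at h7
      exact h7
    · rw [map_zero]
      exact Submodule.zero_mem _
  have hgen : ∀ (p : Pn n),
      (∀ g : Equiv.Perm (Fin n), rn g p = p) → constantCoeff p = 0 → ∀ (h : Pn n) (k : ℕ),
      H.psi δ (homogeneousComponent k (h * p)) ∈ H.G δ k := by
    intro p hp h0 h k
    have hh := span_words h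
    induction hh using Submodule.span_induction with
    | mem x hx =>
      obtain ⟨w, rfl⟩ := hx
      exact hword w p hp h0 k
    | zero => rw [zero_mul, map_zero, map_zero]; exact Submodule.zero_mem _
    | add x y _ _ hx hy =>
      rw [add_mul, map_add, map_add]
      exact Submodule.add_mem _ hx hy
    | smul a x _ hx =>
      rw [smul_mul_assoc, map_smul, map_smul]
      exact Submodule.smul_mem _ a hx
  have hall : ∀ (h : Pn n) (k : ℕ), H.psi δ (homogeneousComponent k (h * f)) ∈ H.G δ k := by
    have hf' : f ∈ Submodule.span (Pn n)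
        {f : Pn n | (∀ σ : Equiv.Perm (Fin n), rn σ f = f) ∧ constantCoeff f = 0} := hf
    induction hf' using Submodule.span_induction with
    | mem x hx => exact hgen x hx.1 hx.2
    | zero =>
      intro h k
      rw [mul_zero, map_zero, map_zero]
      exact Submodule.zero_mem _
    | add x y _ _ hx hy =>
      intro h k
      rw [mul_add, map_add, map_add]
      exact Submodule.add_mem _ (hx (by assumption) h k) (hy (by assumption) h k)
    | smul a x _ hx =>
      intro h k
      rw [smul_eq_mul, ← mul_assoc]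
      exact hx (by assumption) (h * a) k
  intro k
  have h := hall 1 k
  rw [one_mul] at h
  exact h

end

end Pool.Agent.Helper76.HM
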