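import Pool.Agent.Helper19.HM.Goals

/-!
# HM-TRC: the trace of the group elements
-/

set_option autoImplicit false

namespace Pool.Agent.Helper76.HM

noncomputable section

open Pool.Agent.Helper19.SQ Pool.Agent.Helper19.HM MvPolynomial

/-- **TRC**. -/
theorem c_trc : S_TRC := by
  intro n V _ _ _ H hn g i j hgi hij
  have hyx := H.yx i j hij
  have h1 : H.s g * (H.y i * H.x j - H.x j * H.y i)
      = cc n • H.s (g * Equiv.swap i j) - (1 / (n : ℂ)) • H.s g := by
    rw [hyx, mul_sub, mul_smul_comm, mul_smul_comm, mul_one, H.s_mul]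
  have h2 : LinearMap.trace ℂ V (H.s g * (H.y i * H.x j))
      = LinearMap.trace ℂ V (H.s g * (H.x j * H.y i)) := by
    rw [← mul_assoc, H.sy, hgi, mul_assoc, LinearMap.trace_mul_comm, mul_assoc]
  have h3 : cc n * LinearMap.trace ℂ V (H.s (g * Equiv.swap i j))
      - (1 / (n : ℂ)) * LinearMap.trace ℂ V (H.s g) = 0 := by
    have h4 := congrArg (LinearMap.trace ℂ V) h1
    rw [mul_sub, map_sub, h2, sub_self, map_sub, map_smul, map_smul, smul_eq_mul,
      smul_eq_mul] at h4
    exact h4.symm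
  have hn0 : (n : ℂ) ≠ 0 := by
    have : n ≠ 0 := by omega
    exact_mod_cast this
  unfold cc at h3
  have h5 : (n : ℂ) * (((n : ℂ) + 1) / (n : ℂ) * LinearMap.trace ℂ V (H.s (g * Equiv.swap i j))
      - (1 / (n : ℂ)) * LinearMap.trace ℂ V (H.s g)) = 0 := by
    rw [h3, mul_zero]
  have h6 : (n : ℂ) * (((n : ℂ) + 1) / (n : ℂ) * LinearMap.trace ℂ V (H.s (g * Equiv.swap i j))
      - (1 / (n : ℂ)) * LinearMap.trace ℂ V (H.s g))
      = ((n : ℂ) + 1) * LinearMap.trace ℂ V (H.s (g * Equiv.swap i j))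
        - LinearMap.trace ℂ V (H.s g) := by
    field_simp
  rw [h6] at h5
  exact sub_eq_zero.1 h5

end

end Pool.Agent.Helper76.HM
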